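import Pool.Agent.helper16.EXG.Spec

/-!
# Project EXG (MP_561ff4_al), row GYC: all products `OkP` are commutators
-/

set_option autoImplicit false

open Finset

namespace Pool.Agent.EXC

theorem GYC_comm {G : Type} [Group G] (Y u1 u2 w z : G) (h1 : Y * u1 * Y⁻¹ * u1⁻¹ = w)
    (h2 : Y * u2 * Y⁻¹ * u2⁻¹ = z) (h3 : u1 * z = z * u1) :
    Y * (u1 * u2) * Y⁻¹ * (u1 * u2)⁻¹ = w * z := by
  have e : Y * (u1 * u2) * Y⁻¹ * (u1 * u2)⁻¹ = (Y * u1 * Y⁻¹ * u1⁻¹) * (u1 * (Y * u2 * Y⁻¹ * u2⁻¹) * u1⁻¹) := by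
    group
  rw [e, h1, h2, h3, mul_inv_cancel_right]

theorem GYC (hGXC : GXC_stmt) (hGVA : GVA_stmt) (hGYB : GYB_stmt) : GYC_stmt := by
  intro n C _ F _ hβ a ha κ t hκ l hl
  obtain ⟨f, c, b1, b2, G, rfl, hf, hc, haf, hac, hfc, hG⟩ := hl
  have hX : ∀ α, ip C α α = 2 → ∀ s : F, XG C α s ∈ GE C F := fun α hα s => (k_XGS n C F hβ α hα s).2.1
  have hacr : ip C (a + c) (a + c) = 2 := (add_root_iff ha hc).2 hac
  have hfar : ip C (f - a) (f - a) = 2 := (sub_root_iff hf ha).2 (by rw [ip_comm]; exact haf)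
  obtain ⟨p, q, p', h1⟩ := hGYB n C F hβ a c f ha hc hf hac haf hfc κ (if b1 then 1 else t) (if b2 then 1 else t) hκ
  have hu1 : XG C c p * XG C (a + c) q * XG C (f - a) p' ∈ GE C F :=
    mul_mem (mul_mem (hX _ hc _) (hX _ hacr _)) (hX _ hfar _)
  rcases hG with rfl | ⟨g, b3, rfl, hg, hcase⟩
  · refine ⟨?_, _, hu1, ?_⟩
    · intro r hr
      rcases List.mem_cons.1 hr with rfl | hr
      · exact hf
      · rcases List.mem_cons.1 hr with rfl | hr
        · exact hc
        · exact absurd hr (List.not_mem_nil)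
    · rw [h1]
      unfold prd
      simp only [List.map_cons, List.map_nil, List.prod_cons, List.prod_nil, mul_one]
  · have hcomm : ∀ α β, ip C α α = 2 → ip C β β = 2 → 0 ≤ ip C α β → ∀ s s' : F,
        XG C α s * XG C β s' = XG C β s' * XG C α s := fun α β hα hβ' h s s' =>
      (hGXC n C F hβ α β hα hβ' s s').2.2.1 h
    have h0 : ∀ α, ip C α α = 2 → XG C α (0 : F) = 1 := fun α hα => (hGXC n C F hβ α α hα hα 0 0).2.1
    -- the second commutator
    have key : (∃ u2 ∈ GE C F, (XG C a 1 * XG C (-a) κ) * u2 * (XG C a 1 * XG C (-a) κ)⁻¹ * u2⁻¹ =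
        XG C g (if b3 then 1 else t)) ∧ 0 ≤ ip C g c ∧ 0 ≤ ip C g (a + c) ∧ 0 ≤ ip C g (f - a) := by
      rcases hcase with ⟨h2, h3, h4⟩ | ⟨h2, h3, h4⟩
      · have hagr : ip C (a + g) (a + g) = 2 := (add_root_iff ha hg).2 h2
        refine ⟨?_, ?_, ?_, ?_⟩
        · obtain ⟨p2, q2, -, -, h5⟩ := hGVA n C F hβ a g ha hg h2 κ hκ (if b3 then 1 else t) 0
          refine ⟨XG C g p2 * XG C (a + g) q2, mul_mem (hX _ hg _) (hX _ hagr _), ?_⟩
          rw [h5, h0 _ hagr, mul_one]
        · omega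
        · rw [ip_add_right, ip_comm C g a]
          omega
        · omega
      · have hgr : ip C (g - a) (g - a) = 2 := (sub_root_iff hg ha).2 (by rw [ip_comm]; exact h2)
        have hag : ip C a (g - a) = -1 := by
          rw [ip_sub_right, ha, h2]
          norm_num
        have e : a + (g - a) = g := by abel
        rw [ip_sub_left] at h3 h4
        have h6 : ip C a (f - a) = -1 := by
          rw [ip_sub_right, ha, haf]
          norm_num
        refine ⟨?_, ?_, ?_, ?_⟩
        · obtain ⟨p2, q2, -, -, h5⟩ := hGVA n C F hβ a (g - a) ha hgr hag κ hκ 0 (if b3 then 1 else t)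
          rw [e] at h5
          refine ⟨XG C (g - a) p2 * XG C g q2, mul_mem (hX _ hgr _) (hX _ hg _), ?_⟩
          rw [h5, h0 _ hgr, one_mul]
        · omega
        · rw [ip_add_right, ip_comm C g a]
          omega
        · omega
    obtain ⟨⟨u2, hu2, h2⟩, k1, k2, k3⟩ := key
    refine ⟨?_, _, mul_mem hu1 hu2, ?_⟩
    · intro r hr
      rcases List.mem_cons.1 hr with rfl | hr
      · exact hf
      · rcases List.mem_cons.1 hr with rfl | hr
        · exact hc
        · rcases List.mem_cons.1 hr with rfl | hr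
          · exact hg
          · exact absurd hr (List.not_mem_nil)
    · rw [GYC_comm _ _ _ _ _ h1 h2 ?_]
      · unfold prd
        simp only [List.map_cons, List.map_nil, List.prod_cons, List.prod_nil, mul_one, mul_assoc]
      · rw [mul_assoc, hcomm _ _ hfar hg (by rw [ip_comm]; exact k3), ← mul_assoc,
          mul_assoc (XG C c p), hcomm _ _ hacr hg (by rw [ip_comm]; exact k2), ← mul_assoc,
          hcomm _ _ hc hg (by rw [ip_comm]; exact k1)]
        simp only [mul_assoc]

end Pool.Agent.EXC
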